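import Pool.Agent.Lib.MP_b5021c_nt.IfaceB

/-!
# Board b5, row C1B (helper20): Gauss
-/

namespace Pool.Agent.B5.H20

open Pool.Agent.B5
open scoped LaurentPolynomial

section

variable {O : Type} [CommRing O] {L : Type} [AddCommGroup L]

theorem cst_mul (a b : RO O) : (cst (a * b) : AO O L) = cst a * cst b := by
  simp [cst, AddMonoidAlgebra.single_mul_single]

theorem cst_dvd_of_map_eq_zero (p : RO O) (f : AO O L)
    (h : AddMonoidAlgebra.mapRingHom L (Ideal.Quotient.mk (Ideal.span {p})) f = 0) :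
    (cst p : AO O L) ∣ f := by
  have hc : ∀ a : L, p ∣ f.coeff a := by
    intro a
    have h1 : (AddMonoidAlgebra.mapRingHom L (Ideal.Quotient.mk (Ideal.span {p})) f).coeff a = 0 := by
      rw [h]; rfl
    have h2 : (Ideal.Quotient.mk (Ideal.span {p})) (f.coeff a) = 0 := by
      simpa using h1
    rwa [Ideal.Quotient.eq_zero_iff_dvd] at h2
  have hf : f = ∑ a ∈ f.coeff.support, AddMonoidAlgebra.single a (f.coeff a) :=
    (AddMonoidAlgebra.sum_coeff_single f).symm
  rw [hf]
  apply Finset.dvd_sum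
  intro a _
  obtain ⟨q, hq⟩ := hc a
  refine ⟨AddMonoidAlgebra.single a q, ?_⟩
  rw [hq, cst, AddMonoidAlgebra.single_mul_single, zero_add]

theorem map_cst (p : RO O) :
    AddMonoidAlgebra.mapRingHom L (Ideal.Quotient.mk (Ideal.span {p})) (cst p : AO O L) = 0 := by
  have : (Ideal.Quotient.mk (Ideal.span {p})) p = 0 := by
    rw [Ideal.Quotient.eq_zero_iff_dvd]
  simp [cst, this]

end

theorem prime_cst (O : Type) [CommRing O] [IsDomain O] [IsPrincipalIdealRing O]
    (L : Type) [AddCommGroup L] [Module.Free ℤ L] [Module.Finite ℤ L] (p : RO O) (hp : Prime p)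
    (f g : AO O L) (h : (cst p : AO O L) ∣ f * g) : cst p ∣ f ∨ cst p ∣ g := by
  have hI : (Ideal.span {p} : Ideal (RO O)).IsPrime := (Ideal.span_singleton_prime hp.ne_zero).2 hp
  have : IsDomain (RO O ⧸ (Ideal.span {p} : Ideal (RO O))) := Ideal.Quotient.isDomain _
  obtain ⟨k, hk⟩ := h
  have h1 : AddMonoidAlgebra.mapRingHom L (Ideal.Quotient.mk (Ideal.span {p})) f *
      AddMonoidAlgebra.mapRingHom L (Ideal.Quotient.mk (Ideal.span {p})) g = 0 := by
    rw [← map_mul, hk, map_mul, map_cst, zero_mul]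
  rcases mul_eq_zero.1 h1 with h2 | h2
  · exact Or.inl (cst_dvd_of_map_eq_zero p f h2)
  · exact Or.inr (cst_dvd_of_map_eq_zero p g h2)

theorem c1b : C1bS := by
  intro O _ _ _ _ L _ _ _ G H c hG hc
  have key : ∀ c : RO O, c ≠ 0 → ∀ H : AO O L, G ∣ cst c * H → G ∣ H := by
    intro c
    induction c using UniqueFactorizationMonoid.induction_on_prime with
    | h₁ => intro h; exact absurd rfl h
    | h₂ x hx =>
      intro _ H h
      have hu : IsUnit (cst x : AO O L) := by
        obtain ⟨u, rfl⟩ := hx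
        refine IsUnit.of_mul_eq_one (cst (↑u⁻¹ : RO O)) ?_
        rw [← cst_mul, Units.mul_inv]
        rfl
      exact (hu.dvd_mul_left).1 h
    | h₃ a p ha hp ih =>
      intro _ H h
      rw [cst_mul, mul_assoc] at h
      obtain ⟨K, hK⟩ := h
      rcases prime_cst O L p hp G K ⟨cst a * H, hK.symm⟩ with h1 | ⟨K', hK'⟩
      · exact absurd (hG p h1) hp.not_isUnit
      · apply ih ha
        refine ⟨K', ?_⟩
        have hne : (cst p : AO O L) ≠ 0 := by
          intro h0
          have h1 : (cst p : AO O L).coeff 0 = 0 := by rw [h0]; rfl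
          simp [cst] at h1
          exact hp.ne_zero h1
        apply mul_left_cancel₀ hne
        rw [hK, hK']
        ring
  exact key c hc H

end Pool.Agent.B5.H20
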