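import Pool.Agent.Lib.MP_b5021c_nt.IfaceS2a

/-!
# Board b5, row NV2 (helper20)
-/

namespace Pool.Agent.B5.H20

theorem s3 : (1732 : ℝ) / 1000 < Real.sqrt 3 ∧ Real.sqrt 3 < 1733 / 1000 := by
  have h : Real.sqrt 3 ^ 2 = 3 := Real.sq_sqrt (by norm_num)
  have h0 : 0 ≤ Real.sqrt 3 := Real.sqrt_nonneg 3
  constructor <;> nlinarith

theorem bVS_of {x : ℝ} (h : Real.sqrt 3 ≤ x) : bVS x = 2 * x + 100 * Real.log x := by
  have h1 : (1 : ℝ) ≤ x := by linarith [s3.1]
  unfold bVS
  rw [max_eq_right h1]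

theorem one_le_prod {m : ℕ} (N' : Fin m → ℝ) (h : ∀ i, Real.sqrt 3 ≤ N' i) :
    1 ≤ ∏ i, N' i := by
  have : ∏ i : Fin m, (1 : ℝ) ≤ ∏ i, N' i :=
    Finset.prod_le_prod (fun i _ => zero_le_one) fun i _ => by linarith [h i, s3.1]
  simpa using this

theorem three_le_prod {m : ℕ} (N' : Fin m → ℝ) (h : ∀ i, Real.sqrt 3 ≤ N' i) (hm : 2 ≤ m) :
    3 ≤ ∏ i, N' i := by
  have h1 : ∏ i : Fin m, Real.sqrt 3 ≤ ∏ i, N' i :=
    Finset.prod_le_prod (fun i _ => Real.sqrt_nonneg 3) fun i _ => h i
  rw [Finset.prod_const, Finset.card_univ, Fintype.card_fin] at h1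
  have h2 : Real.sqrt 3 ^ 2 ≤ Real.sqrt 3 ^ m :=
    pow_le_pow_right₀ (by linarith [s3.1]) hm
  rw [Real.sq_sqrt (by norm_num)] at h2
  linarith

theorem sum_bVS {m : ℕ} (N' : Fin m → ℝ) (h : ∀ i, Real.sqrt 3 ≤ N' i) :
    ∑ i, bVS (N' i) = 2 * ∑ i, N' i + 100 * Real.log (∏ i, N' i) := by
  rw [Real.log_prod fun i _ => by linarith [h i, s3.1], Finset.mul_sum, Finset.mul_sum,
    ← Finset.sum_add_distrib]
  exact Finset.sum_congr rfl fun i _ => bVS_of (h i)

/-- `log (N / p) ≥ 1 - p / N` -/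
theorem log_ge {N p : ℝ} (hN : 0 < N) (hp : 0 < p) :
    1 - p / N ≤ Real.log N - Real.log p := by
  have h := Real.one_sub_inv_le_log_of_pos (div_pos hN hp)
  rw [inv_div, Real.log_div hN.ne' hp.ne'] at h
  exact h

theorem nv2 (hs : SmpS) : Nv2S := by
  intro N m N' l hN hN' hl
  set p := ∏ i, N' i with hp
  have hN0 : 0 < N := by linarith [s3.1]
  have hp1 : 1 ≤ p := one_le_prod N' hN'
  have hp0 : 0 < p := by linarith
  have hlog := log_ge hN0 hp0
  rw [sum_bVS N' hN', ← hp, bVS_of hN]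
  -- the number `l`
  have hl' : (l : ℝ) ≤ 2 * (N / p) := by
    rw [← mul_div_assoc, le_div_iff₀ hp0]; exact hl
  set ρ := N / p with hρ
  have hNρ : N = ρ * p := by rw [hρ]; field_simp
  have hpN : p / N = 1 / ρ := by rw [hρ]; field_simp
  have hl3 : (54 : ℝ) / 100 ≤ Real.log (Real.sqrt 3) := by
    have h1 := Real.one_sub_inv_le_log_of_pos (show (0 : ℝ) < Real.sqrt (Real.sqrt 3) from
      Real.sqrt_pos.2 (Real.sqrt_pos.2 (by norm_num)))
    have h2 : Real.log (Real.sqrt 3) = Real.log 3 / 2 := Real.log_sqrt (by norm_num)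
    rw [h2]
    have h3 : (1.0986 : ℝ) < Real.log 3 := by
      have := Real.log_three_gt_d9
      linarith
    linarith
  rcases Nat.lt_or_ge m 2 with hm | hm
  · rcases Nat.lt_or_ge m 1 with hm0 | hm0
    · -- `m = 0`
      obtain rfl : m = 0 := by omega
      have hp' : p = 1 := by rw [hp]; simp
      have hS : ∑ i : Fin 0, N' i = 0 := by simp
      rw [hS, hp', Real.log_one]
      have h1 : Real.log (Real.sqrt 3) ≤ Real.log N :=
        Real.log_le_log (by linarith [s3.1]) hN
      have h2 : (l : ℝ) ≤ 2 * N := by rw [hp'] at hl; linarith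
      constructor
      · intro _ _; linarith
      · intro _; linarith
    · -- `m = 1`
      obtain rfl : m = 1 := by omega
      have hS : ∑ i : Fin 1, N' i = p := by rw [hp]; simp
      rw [hS]
      constructor
      · intro _ h2
        have h3 : 2 * p ^ 2 ≤ N ^ 2 := h2 rfl
        have h4 : 14 / 10 * p ≤ N := by nlinarith
        have hρ1 : (14 : ℝ) / 10 ≤ ρ := by rw [hρ, le_div_iff₀ hp0]; exact h4
        have h5 : 1 - p / N ≥ 28 / 100 := by
          rw [ge_iff_le, le_sub_comm, div_le_iff₀ hN0]; linarith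
        have h6 : ρ + p - ρ * p ≤ 1 := by nlinarith
        linarith [hNρ]
      · intro h2
        have hρ1 : (5 : ℝ) / 4 ≤ ρ := by rw [hρ, le_div_iff₀ hp0]; linarith
        have h5 : 1 - p / N ≥ 1 / 5 := by
          rw [ge_iff_le, le_sub_comm, div_le_iff₀ hN0]; linarith
        have h6 : ρ + p - ρ * p ≤ 1 := by nlinarith
        linarith [hNρ]
  · -- `m ≥ 2`
    have hp3 : 3 ≤ p := three_le_prod N' hN' hm
    have hS := hs m N' hm hN'
    rw [← hp] at hS
    have h1 : p / Real.sqrt 3 ≤ 5774 / 10000 * p := by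
      rw [div_le_iff₀ (by linarith [s3.1])]
      nlinarith [s3.1]
    constructor
    · intro h2 _
      set u := N - p with hu
      have hNu : N = p + u := by rw [hu]; ring
      have hu0 : 37 / 100 ≤ u := by
        by_contra hc
        push Not at hc
        rw [hNu] at h2
        nlinarith
      have hρu : ρ ≤ 1 + u / 3 := by
        rw [hρ, div_le_iff₀ hp0, hNu]
        nlinarith
      -- `1 - p / N`
      have h5 : ∀ B : ℝ, p ≤ B → 37 / 100 / (B + 37 / 100) ≤ 1 - p / N := by
        intro B hB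
        have h6 : 1 - p / N = u / N := by rw [hu]; field_simp
        rw [h6, div_le_div_iff₀ (by linarith) hN0]
        nlinarith
      have h7 : 0 ≤ 1 - p / N := by
        rw [sub_nonneg, div_le_one hN0]; linarith
      have h8 : (84 : ℝ) / 10 ≤ 8452 / 10000 * p + 4 / 3 * u + 100 * (1 - p / N) := by
        rcases le_total 10 p with h | h
        · linarith
        rcases le_total p 6 with h' | h'
        · have := h5 6 h'
          norm_num at this
          linarith
        · have := h5 10 h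
          norm_num at this
          linarith
      have h9 : 2 * N = 2 * p + 2 * u := by rw [hNu]; ring
      linarith
    · intro h2
      have hρ1 : (5 : ℝ) / 4 ≤ ρ := by rw [hρ, le_div_iff₀ hp0]; linarith
      have h5 : 1 - p / N ≥ 1 / 5 := by
        rw [ge_iff_le, le_sub_comm, div_le_iff₀ hN0]; linarith
      have h6 : 2 * ρ + 2 * (5774 / 10000 * p) ≤ 2 * (ρ * p) := by nlinarith
      linarith [hNρ]

end Pool.Agent.B5.H20
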